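import Mathlib
import Pool.Agent.Helper40.SolAct

set_option autoImplicit false

namespace Pool.Agent.Results.MP_7909d8_al.DerivedLengthThree

universe u

/-- For every countable group `G` there is a finitely generated group `S` with `S^{(3)} = 1`
(so soluble of derived length at most `3`) such that `G` embeds in `Aut S`. -/
theorem result : ∀ (G : Type u) [Group G] [Countable G],
    ∃ (S : Type u) (_ : Group S), Group.FG S ∧ derivedSeries S 3 = ⊥ ∧
      ∃ f : G →* MulAut S, Function.Injective f := by
  intro G _ _
  obtain ⟨S, hfg, hd, f, hf⟩ := Pool.Agent.Helper40.SolAct.main G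
  exact ⟨S, inferInstance, (Group.fg_iff_subgroup_fg S).2 hfg, hd, f, hf⟩

end Pool.Agent.Results.MP_7909d8_al.DerivedLengthThree
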